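import Pool.Agent.helper84.TP.SpecC

set_option autoImplicit false

namespace Pool.Agent.TP

open Function

/-- the matrix `(0, -1; 1, 0)` -/
def KC_S : Matrix.SpecialLinearGroup (Fin 2) ℤ := ⟨!![0, -1; 1, 0], by simp⟩

/-- the matrix `(1, -1; 1, 0)` -/
def KC_U : Matrix.SpecialLinearGroup (Fin 2) ℤ := ⟨!![1, -1; 1, 0], by simp⟩

theorem KC_SS : KC_S * KC_S = -1 := by
  apply Subtype.ext
  show (!![0, -1; 1, 0] : Matrix (Fin 2) (Fin 2) ℤ) * !![0, -1; 1, 0] = -1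
  ext i j
  fin_cases i <;> fin_cases j <;> simp [Matrix.mul_apply, Fin.sum_univ_two]

theorem KC_UUU : KC_U * KC_U * KC_U = -1 := by
  apply Subtype.ext
  show (!![1, -1; 1, 0] : Matrix (Fin 2) (Fin 2) ℤ) * !![1, -1; 1, 0] * !![1, -1; 1, 0] = -1
  ext i j
  fin_cases i <;> fin_cases j <;> simp [Matrix.mul_apply, Fin.sum_univ_two]

theorem KC_b : KC_S = bM * KC_U := by
  apply Subtype.ext
  show (!![0, -1; 1, 0] : Matrix (Fin 2) (Fin 2) ℤ) = !![1, -1; 0, 1] * !![1, -1; 1, 0]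
  ext i j
  fin_cases i <;> fin_cases j <;> simp [Matrix.mul_apply, Fin.sum_univ_two]

theorem KC_x : bM * bM * bM * bM * KC_S = KC_S * xM := by
  apply Subtype.ext
  show (!![1, -1; 0, 1] : Matrix (Fin 2) (Fin 2) ℤ) * !![1, -1; 0, 1] * !![1, -1; 0, 1] * !![1, -1; 0, 1] *
    !![0, -1; 1, 0] = !![0, -1; 1, 0] * !![1, 0; 4, 1]
  ext i j
  fin_cases i <;> fin_cases j <;> simp [Matrix.mul_apply, Fin.sum_univ_two]

theorem KC_pow (m : ℤ) : (KC_S ^ 2) ^ m = 1 ∨ (KC_S ^ 2) ^ m = -1 := by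
  have h1 : KC_S ^ 2 = -1 := by rw [pow_two, KC_SS]
  have h2 : (-1 : Matrix.SpecialLinearGroup (Fin 2) ℤ) * (-1) = 1 := by simp
  rw [h1]
  rcases Int.even_or_odd' m with ⟨k, rfl | rfl⟩
  · left
    rw [zpow_mul, zpow_two, h2, one_zpow]
  · right
    rw [zpow_add, zpow_mul, zpow_two, h2, one_zpow, one_mul, zpow_one]

theorem KC (hKCF : KCF_stmt) : KC_stmt := by
  let x : Matrix.SpecialLinearGroup (Fin 2) ℤ × Multiplicative ℤ := (KC_S, Multiplicative.ofAdd 3)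
  let y : Matrix.SpecialLinearGroup (Fin 2) ℤ × Multiplicative ℤ := (KC_U, Multiplicative.ofAdd 2)
  have hb : (x * y⁻¹).1 = bM := by
    show KC_S * KC_U⁻¹ = bM
    rw [KC_b, mul_inv_cancel_right]
  have hx : (x⁻¹ * (x * y⁻¹) ^ 4 * x).1 = xM := by
    show KC_S⁻¹ * ((x * y⁻¹) ^ 4).1 * KC_S = xM
    rw [Prod.pow_fst, hb]
    have h1 : bM ^ 4 = bM * bM * bM * bM := by
      rw [pow_succ, pow_succ, pow_succ, pow_one]
    rw [h1, mul_assoc, KC_x, inv_mul_cancel_left]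
  have hlift : ∀ w : FreeGroup (Fin 2),
      (FreeGroup.lift ![x * y⁻¹, x⁻¹ * (x * y⁻¹) ^ 4 * x] w).1 = FreeGroup.lift ![bM, xM] w := by
    intro w
    have h1 : (MonoidHom.fst (Matrix.SpecialLinearGroup (Fin 2) ℤ) (Multiplicative ℤ)).comp
        (FreeGroup.lift ![x * y⁻¹, x⁻¹ * (x * y⁻¹) ^ 4 * x]) = FreeGroup.lift ![bM, xM] := by
      apply FreeGroup.ext_hom
      intro i
      rw [MonoidHom.comp_apply, FreeGroup.lift_apply_of, FreeGroup.lift_apply_of]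
      fin_cases i
      · exact hb
      · exact hx
    exact congrArg (fun f => f w) h1
  refine ⟨Matrix.SpecialLinearGroup (Fin 2) ℤ × Multiplicative ℤ, inferInstance, x, y, ?_, fun m w hw => ?_⟩
  · refine Prod.ext ?_ ?_
    · show KC_S ^ 2 = KC_U ^ 3
      rw [pow_two, KC_SS, pow_succ, pow_two, KC_UUU]
    · show (Multiplicative.ofAdd (3 : ℤ)) ^ 2 = (Multiplicative.ofAdd (2 : ℤ)) ^ 3
      rfl
  · have h1 := congrArg Prod.fst hw
    have h2 : ((x ^ 2) ^ m).1 = (KC_S ^ 2) ^ m := rfl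
    rw [Prod.fst_mul, hlift, h2, Prod.fst_one] at h1
    have hw1 : w = 1 := by
      rcases KC_pow m with h3 | h3
      · rw [h3, one_mul] at h1
        exact (hKCF w).1 h1
      · exfalso
        rw [h3] at h1
        apply (hKCF w).2
        have h4 : (-1 : Matrix.SpecialLinearGroup (Fin 2) ℤ) * (-1 * FreeGroup.lift ![bM, xM] w) = -1 * 1 := by
          rw [h1]
        rw [← mul_assoc] at h4
        simpa using h4
    refine ⟨?_, hw1⟩
    rw [hw1, map_one, mul_one] at hw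
    have h5 := congrArg (fun z : Matrix.SpecialLinearGroup (Fin 2) ℤ × Multiplicative ℤ =>
      Multiplicative.toAdd z.2) hw
    have h6 : Multiplicative.toAdd (((x ^ 2) ^ m).2) = m * 6 := by
      have h8 : ((x ^ 2) ^ m).2 = ((Multiplicative.ofAdd (3 : ℤ)) ^ 2) ^ m := rfl
      rw [h8, toAdd_zpow, toAdd_pow]
      show m • (2 • (3 : ℤ)) = m * 6
      rw [smul_eq_mul]
      norm_num
    have h7 : Multiplicative.toAdd (((x ^ 2) ^ m).2) = 0 := h5
    rw [h6] at h7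
    omega

end Pool.Agent.TP
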